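import Pool.Agent.X211.TE.Main

/-!
# Extension of total list colourings of sparse graphs: final forms
-/

set_option autoImplicit false
set_option linter.unusedSectionVars false

namespace Pool.Agent.X211.TE

open Finset Pool.Agent.H162R2.Sparse

/-- `c` (on the vertices) and `f` (on the edges) form a proper total colouring of `G`. -/
def Proper {V : Type} (G : SimpleGraph V) (c : V → ℕ) (f : Sym2 V → ℕ) : Prop :=
  (∀ u v, G.Adj u v → c u ≠ c v) ∧
  (∀ u v w, G.Adj u v → G.Adj u w → v ≠ w → f s(u, v) ≠ f s(u, w)) ∧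
  (∀ u v, G.Adj u v → f s(u, v) ≠ c u)

/-- The average degree of every subgraph of `G` is at most `a`. -/
def MadLe {V : Type} (G : SimpleGraph V) (a : ℝ) : Prop :=
  ∀ X : Finset V, ({e : V × V | e.1 ∈ X ∧ e.2 ∈ X ∧ G.Adj e.1 e.2}.ncard : ℝ) ≤ a * X.card

theorem list_ext (V : Type) [Fintype V] (G : SimpleGraph V) (D t : ℕ) (a : ℝ)
    (hD : ∀ v, (G.neighborSet v).ncard ≤ D) (hmad : MadLe G a)
    (ha : 34 * (1 + t) * a * (1 + Real.log D) ≤ D) (P : Set V)
    (hP : ∀ v, (G.neighborSet v ∩ P).ncard ≤ t) (M : V → Finset ℕ) (L : Sym2 V → Finset ℕ)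
    (hM : ∀ v, v ∉ P → D + 1 ≤ (M v).card)
    (hL : ∀ u v, G.Adj u v → u ∉ P → D + 1 ≤ (L s(u, v)).card)
    (c0 : V → ℕ) (f0 : Sym2 V → ℕ)
    (h1 : ∀ u v, u ∈ P → v ∈ P → G.Adj u v → c0 u ≠ c0 v ∧ f0 s(u, v) ≠ c0 u)
    (h2 : ∀ u v w, u ∈ P → v ∈ P → w ∈ P → G.Adj u v → G.Adj u w → v ≠ w →
      f0 s(u, v) ≠ f0 s(u, w)) :
    ∃ (c : V → ℕ) (f : Sym2 V → ℕ), Proper G c f ∧ (∀ v ∈ P, c v = c0 v) ∧
      (∀ v, v ∉ P → c v ∈ M v) ∧
      (∀ u v, u ∈ P → v ∈ P → G.Adj u v → f s(u, v) = f0 s(u, v)) ∧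
      (∀ u v, G.Adj u v → u ∉ P → f s(u, v) ∈ L s(u, v)) := by
  classical
  let P' : Finset V := P.toFinset
  have hP' : ∀ v, v ∈ P' ↔ v ∈ P := by
    intro v
    simp [P']
  let L' : V → V → Finset ℕ := fun a b =>
    if a ∈ P ∧ b ∈ P then {f0 s(a, b)} else L s(a, b)
  let M' : V → Finset ℕ := fun v => if v ∈ P then {c0 v} else M v
  have hsym : ∀ a b, L' a b = L' b a := by
    intro a b
    simp only [L']
    rw [Sym2.eq_swap]
    by_cases h : a ∈ P ∧ b ∈ P
    · rw [if_pos h, if_pos h.symm]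
    · rw [if_neg h, if_neg (fun h' => h h'.symm)]
  have hnp : ∀ v, np G P' v ≤ t := by
    intro v
    refine le_trans (le_of_eq ?_) (hP v)
    unfold np
    rw [← Set.ncard_coe_finset]
    congr 1
    ext w
    simp [mem_nb, hP']
  obtain ⟨f, g, hf1, hf2, hf3, hg1, hg2, hg3⟩ := main_ext D t a ha P' L' M' hsym (by
      intro v hv
      rw [hP'] at hv
      simp only [M']
      rw [if_neg hv]
      exact hM v hv) (fun a b => f0 s(a, b)) c0 (by
      intro v hv
      rw [hP'] at hv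
      simp only [M']
      rw [if_pos hv]
      exact Finset.mem_singleton_self _) _ G rfl (by
      intro v
      rw [dg_eq_ncard]
      exact hD v) (dens_of_ncard G a hmad) hnp (by
      intro u v huv hu
      rw [hP'] at hu
      simp only [L']
      rw [if_neg (fun h => hu h.1)]
      exact hL u v huv hu) (by
      intro u v hu hv huv
      rw [hP'] at hu hv
      refine ⟨by rw [Sym2.eq_swap], ?_, (h1 u v hu hv huv).1, (h1 u v hu hv huv).2.symm⟩
      simp only [L']
      rw [if_pos ⟨hu, hv⟩]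
      exact Finset.mem_singleton_self _) (by
      intro u v w hu hv hw huv huw hvw
      rw [hP'] at hu hv hw
      exact h2 u v w hu hv hw huv huw hvw)
  let F : V → V → ℕ := fun a b => if G.Adj a b then f a b else 0
  have hF : ∀ a b, F a b = F b a := by
    intro a b
    simp only [F]
    by_cases h : G.Adj a b
    · rw [if_pos h, if_pos h.symm]
      exact hf1 a b h
    · rw [if_neg h, if_neg (fun h' => h h'.symm)]
  let f' : Sym2 V → ℕ := Sym2.lift ⟨F, hF⟩
  have hf' : ∀ a b, G.Adj a b → f' s(a, b) = f a b := by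
    intro a b h
    simp only [f', Sym2.lift_mk, F]
    rw [if_pos h]
  refine ⟨g, f', ⟨hg2, ?_, ?_⟩, ?_, ?_, ?_, ?_⟩
  · intro u v w huv huw hvw
    rw [hf' u v huv, hf' u w huw]
    exact hf3 u v w huv huw hvw
  · intro u v huv
    rw [hf' u v huv]
    exact (hg3 u v huv).symm
  · intro v hv
    have h3 := hg1 v
    simp only [M'] at h3
    rw [if_pos hv, Finset.mem_singleton] at h3
    exact h3
  · intro v hv
    have h3 := hg1 v
    simp only [M'] at h3
    rwa [if_neg hv] at h3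
  · intro u v hu hv huv
    have h3 := hf2 u v huv
    simp only [L'] at h3
    rw [if_pos ⟨hu, hv⟩, Finset.mem_singleton] at h3
    rw [hf' u v huv, h3]
  · intro u v huv hu
    have h3 := hf2 u v huv
    simp only [L'] at h3
    rw [if_neg (fun h => hu h.1)] at h3
    rw [hf' u v huv]
    exact h3

/-- the vertices of a distance-3 matching -/
theorem two_nbrs {V : Type} [Fintype V] (G : SimpleGraph V) (H : G.Subgraph)
    (hm : H.IsMatching)
    (hd : ∀ u ∈ H.verts, ∀ v ∈ H.verts, u ≠ v → ¬ H.Adj u v → 3 ≤ G.edist u v) :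
    (∀ u v, u ∈ H.verts → v ∈ H.verts → G.Adj u v → H.Adj u v) ∧
    ∀ v, (G.neighborSet v ∩ H.verts).ncard ≤ 2 := by
  classical
  have h0 : ∀ u v, u ∈ H.verts → v ∈ H.verts → G.Adj u v → H.Adj u v := by
    intro u v hu hv huv
    by_contra hcon
    have h3 := hd u hu v hv huv.ne hcon
    have h4 : G.edist u v ≤ 1 := by
      have := SimpleGraph.Walk.edist_le (SimpleGraph.Walk.cons huv SimpleGraph.Walk.nil)
      simpa using this
    have h5 := h3.trans h4
    exact absurd h5 (by decide)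
  refine ⟨h0, ?_⟩
  intro v
  by_contra hcon
  push Not at hcon
  obtain ⟨x, y, z, hx, hy, hz, hxy, hxz, hyz⟩ := (Set.two_lt_ncard_iff (Set.toFinite _)).1 hcon
  have h5 : ∀ p q, p ∈ G.neighborSet v ∩ H.verts → q ∈ G.neighborSet v ∩ H.verts → p ≠ q →
      H.Adj p q := by
    intro p q hp hq hpq
    by_contra hc
    have h3 := hd p hp.2 q hq.2 hpq hc
    have h4 : G.edist p q ≤ 2 := by
      have hp1 : G.Adj p v := ((SimpleGraph.mem_neighborSet _ _ _).1 hp.1).symm
      have hq1 : G.Adj v q := (SimpleGraph.mem_neighborSet _ _ _).1 hq.1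
      have := SimpleGraph.Walk.edist_le
        (SimpleGraph.Walk.cons hp1 (SimpleGraph.Walk.cons hq1 SimpleGraph.Walk.nil))
      simpa using this
    have h5 := h3.trans h4
    exact absurd h5 (by decide)
  have h6 := h5 x y hx hy hxy
  have h7 := h5 x z hx hz hxz
  exact hyz ((hm hx.2).unique h6 h7)

end Pool.Agent.X211.TE
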