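import Pool.Agent.X211.TE.Struct

/-!
# Extension of total list colourings of sparse graphs
-/

set_option autoImplicit false
set_option linter.unusedSectionVars false

namespace Pool.Agent.X211.TE

open Finset Pool.Agent.H162R2.Sparse

variable {V : Type} [Fintype V] [DecidableEq V]

/-- the number of neighbours in `P` -/
noncomputable def np (G : SimpleGraph V) (P : Finset V) (v : V) : ℕ :=
  ((nb G v).filter (fun w => w ∈ P)).card

theorem nb_mono {G H : SimpleGraph V} (h : ∀ a b, H.Adj a b → G.Adj a b) (v : V) :
    nb H v ⊆ nb G v := by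
  intro w hw
  rw [mem_nb] at hw ⊢
  exact h v w hw

theorem np_mono {G H : SimpleGraph V} (h : ∀ a b, H.Adj a b → G.Adj a b) (P : Finset V) (v : V) :
    np H P v ≤ np G P v :=
  Finset.card_le_card (Finset.filter_subset_filter _ (nb_mono h v))

theorem main_ext (D t : ℕ) (a : ℝ) (ha : 34 * (1 + t) * a * (1 + Real.log D) ≤ D)
    (P : Finset V) (L : V → V → Finset ℕ) (M : V → Finset ℕ)
    (hsym : ∀ a b, L a b = L b a) (hM : ∀ v ∉ P, D + 1 ≤ (M v).card)
    (f0 : V → V → ℕ) (g0 : V → ℕ) (hg0 : ∀ v ∈ P, g0 v ∈ M v) :
    ∀ (n : ℕ) (G : SimpleGraph V), (pr G).card = n → (∀ v, dg G v ≤ D) → Dens G a →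
      (∀ v, np G P v ≤ t) →
      (∀ u v, G.Adj u v → u ∉ P → D + 1 ≤ (L u v).card) →
      (∀ u v, u ∈ P → v ∈ P → G.Adj u v → f0 u v = f0 v u ∧ f0 u v ∈ L u v ∧ g0 u ≠ g0 v ∧
        g0 u ≠ f0 u v) →
      (∀ u v w, u ∈ P → v ∈ P → w ∈ P → G.Adj u v → G.Adj u w → v ≠ w → f0 u v ≠ f0 u w) →
      LT G L M := by
  classical
  intro n
  induction n using Nat.strong_induction_on with
  | _ n ih =>
    intro G hn hD hdens hnp hL h1 h2
    by_cases hedge : ∃ u v, G.Adj u v ∧ u ∉ P
    · have hapos : 0 ≤ a := by
        obtain ⟨u, v, huv, _⟩ := hedge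
        have h3 := hdens {u}
        rw [Finset.card_singleton] at h3
        have h4 : (0 : ℝ) ≤ ((pr G).filter (fun e => e.1 ∈ ({u} : Finset V) ∧
          e.2 ∈ ({u} : Finset V))).card := by positivity
        push_cast at h3
        linarith
      have ht0 : (0 : ℝ) ≤ t := by positivity
      have hlog : 0 ≤ Real.log (D : ℝ) := Real.log_natCast_nonneg D
      by_cases hsmall : ∃ u v, G.Adj u v ∧ u ∉ P ∧ dg G u + dg G v ≤ D + 1 ∧ 2 * dg G u ≤ D
      · obtain ⟨u, v, huv, huP, hdeg, hu⟩ := hsmall
        have hmono : ∀ a b, (cutE G u v).Adj a b → G.Adj a b := by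
          intro a b h
          exact ((cutE_adj G u v a b).1 h).1
        apply ext_edgeT G u v huv L M hsym
        · have := hL u v huv huP
          omega
        · have := hM u huP
          omega
        · apply ih _ _ (cutE G u v) rfl
          · intro w
            exact (dg_mono hmono w).trans (hD w)
          · exact Dens_mono hmono hdens
          · intro w
            exact (np_mono hmono P w).trans (hnp w)
          · intro x y hxy hx
            exact hL x y (hmono x y hxy) hx
          · intro x y hx hy hxy
            exact h1 x y hx hy (hmono x y hxy)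
          · intro x y z hx hy hz hxy hxz
            exact h2 x y z hx hy hz (hmono x y hxy) (hmono x z hxz)
          · rw [← hn]
            apply pr_card_lt hmono u v huv
            rw [cutE_adj]
            tauto
      · push Not at hsmall
        have ha0 : ∀ u : V, (dg G u : ℝ) ≤ 2 * (1 + t) * a → 2 * dg G u ≤ D := by
          intro u h
          have h0 : 0 ≤ (1 + (t : ℝ)) * a := by positivity
          have h3 : 0 ≤ (1 + (t : ℝ)) * a * Real.log D := by positivity
          have h4 : (2 * (dg G u : ℝ)) ≤ D := by nlinarith
          exact_mod_cast h4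
        obtain ⟨X, hX1, hX2, hX3, hX4⟩ := structP G P t D a hD hdens hnp ha hedge (by
          intro u v huv huP h
          have h1 := hsmall u v huv huP
          have h2 := ha0 u h
          by_contra hcon
          have h3 := h1 (by omega)
          omega)
        have hmono : ∀ a b, (cutX G X).Adj a b → G.Adj a b := by
          intro a b h
          exact ((cutX_adj G X a b).1 h).1
        refine ext_bipTX G X D L M hX3 hX4 hD ?_ ?_ hsym ?_
        · intro x hx y hxy
          exact hL x y hxy (hX2 x hx).1
        · intro u hu
          have h3 := ha0 u (hX2 u hu).2.2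
          have := hM u (hX2 u hu).1
          omega
        apply ih _ _ (cutX G X) rfl
        · intro w
          exact (dg_mono hmono w).trans (hD w)
        · exact Dens_mono hmono hdens
        · intro w
          exact (np_mono hmono P w).trans (hnp w)
        · intro x y hxy hx
          exact hL x y (hmono x y hxy) hx
        · intro x y hx hy hxy
          exact h1 x y hx hy (hmono x y hxy)
        · intro x y z hx hy hz hxy hxz
          exact h2 x y z hx hy hz (hmono x y hxy) (hmono x z hxz)
        · rw [← hn]
          obtain ⟨u, hu⟩ := hX1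
          have h3 := (hX2 u hu).2.1
          unfold dg at h3
          rw [Nat.one_le_iff_ne_zero, Finset.card_ne_zero] at h3
          obtain ⟨v, hv⟩ := h3
          rw [mem_nb] at hv
          apply pr_card_lt hmono u v hv
          rw [cutX_adj]
          tauto
    · push Not at hedge
      have hM0 : ∀ v, ∃ m, m ∈ M v ∧ (v ∈ P → m = g0 v) := by
        intro v
        by_cases hv : v ∈ P
        · exact ⟨g0 v, hg0 v hv, fun _ => rfl⟩
        · have h3 := hM v hv
          have h4 : 0 < (M v).card := by omega
          obtain ⟨m, hm⟩ := Finset.card_pos.1 h4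
          exact ⟨m, hm, fun h => absurd h hv⟩
      choose g hg hgP using hM0
      have hP : ∀ x y, G.Adj x y → x ∈ P ∧ y ∈ P := by
        intro x y h
        exact ⟨hedge x y h, hedge y x h.symm⟩
      refine ⟨f0, g, ?_, ?_, ?_, hg, ?_, ?_⟩
      · intro x y h
        exact (h1 x y (hP x y h).1 (hP x y h).2 h).1
      · intro x y h
        exact (h1 x y (hP x y h).1 (hP x y h).2 h).2.1
      · intro x y z h h' hne
        exact h2 x y z (hP x y h).1 (hP x y h).2 (hP x z h').2 h h' hne
      · intro x y h
        rw [hgP x (hP x y h).1, hgP y (hP x y h).2]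
        exact (h1 x y (hP x y h).1 (hP x y h).2 h).2.2.1
      · intro x y h
        rw [hgP x (hP x y h).1]
        exact (h1 x y (hP x y h).1 (hP x y h).2 h).2.2.2

end Pool.Agent.X211.TE
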