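import Pool.Agent.X211.TE.Bip

/-!
# The structural lemma for sparse graphs with a set `P` of precoloured vertices
-/

set_option autoImplicit false
set_option linter.unusedSectionVars false

namespace Pool.Agent.X211.TE

open Finset Pool.Agent.H162R2.Sparse

variable {V : Type} [Fintype V] [DecidableEq V]

theorem structP (G : SimpleGraph V) (P : Finset V) (t : ℕ) (D : ℕ) (a : ℝ)
    (hD : ∀ v, dg G v ≤ D) (hdens : Dens G a)
    (ht : ∀ v, ((nb G v).filter (fun w => w ∈ P)).card ≤ t)
    (ha : 34 * (1 + t) * a * (1 + Real.log D) ≤ D) (hedge : ∃ u v, G.Adj u v ∧ u ∉ P)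
    (hno : ∀ u v, G.Adj u v → u ∉ P → (dg G u : ℝ) ≤ 2 * (1 + t) * a →
      D + 2 ≤ dg G u + dg G v) :
    ∃ X : Finset V, X.Nonempty ∧
      (∀ u ∈ X, u ∉ P ∧ 1 ≤ dg G u ∧ (dg G u : ℝ) ≤ 2 * (1 + t) * a) ∧
      (∀ u ∈ X, ∀ v ∈ X, ¬ G.Adj u v) ∧
      ∀ u, ∑ e ∈ (ES G X).filter (fun e => e.1 = u), (1 / (hh (ES G X) e.2 : ℚ)) ≤ 1 / 16 := by
  classical
  have hdpos : ∀ u v, G.Adj u v → 1 ≤ dg G v := by
    intro u v h
    unfold dg
    rw [Nat.one_le_iff_ne_zero, Finset.card_ne_zero]
    exact ⟨u, (mem_nb G v u).2 h.symm⟩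
  -- `a ≥ 1`
  have ha1 : 1 ≤ a := by
    obtain ⟨u, v, huv, _⟩ := hedge
    have h1 := hdens {u, v}
    have h2 : ({(u, v), (v, u)} : Finset (V × V)) ⊆
        (pr G).filter (fun e => e.1 ∈ ({u, v} : Finset V) ∧ e.2 ∈ ({u, v} : Finset V)) := by
      intro e he
      rw [Finset.mem_insert, Finset.mem_singleton] at he
      rw [Finset.mem_filter, mem_pr]
      rcases he with rfl | rfl
      · exact ⟨huv, by simp, by simp⟩
      · exact ⟨huv.symm, by simp, by simp⟩
    have h3 := Finset.card_le_card h2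
    have hne : u ≠ v := huv.ne
    rw [Finset.card_pair (by
      intro h
      exact hne (Prod.ext_iff.1 h).1)] at h3
    rw [Finset.card_pair hne] at h1
    have h4 : (2 : ℝ) ≤ ((pr G).filter (fun e => e.1 ∈ ({u, v} : Finset V) ∧
        e.2 ∈ ({u, v} : Finset V))).card := by exact_mod_cast h3
    push_cast at h1
    linarith
  have ht0 : (0 : ℝ) ≤ t := by positivity
  obtain ⟨θ, hθ⟩ : ∃ θ : ℝ, θ = 2 * (1 + t) * a := ⟨_, rfl⟩
  have hθt : 2 * (1 + (t : ℝ)) ≤ θ := by
    rw [hθ]
    nlinarith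
  let T0 : Finset V := Finset.univ.filter (fun v => v ∉ P ∧ 1 ≤ dg G v)
  let Q : Finset V := P.filter (fun v => ∃ u ∈ T0, G.Adj u v)
  let T : Finset V := T0 ∪ Q
  let S : Finset V := T0.filter (fun v => (dg G v : ℝ) ≤ θ)
  let R : Finset V := T0.filter (fun v => ¬ (dg G v : ℝ) ≤ θ)
  let B : Finset V := Finset.univ.filter (fun w => ∃ u ∈ S, G.Adj u w)
  have hmT0 : ∀ v, v ∈ T0 ↔ v ∉ P ∧ 1 ≤ dg G v := by
    intro v
    simp [T0]
  have hT00 : T0.Nonempty := by
    obtain ⟨u, v, h, hu⟩ := hedge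
    exact ⟨u, (hmT0 u).2 ⟨hu, hdpos v u h.symm⟩⟩
  have hTpos : (0 : ℝ) < T0.card := by
    exact_mod_cast Finset.card_pos.2 hT00
  -- `|Q| ≤ t |T0|`
  have hQ : Q.card ≤ t * T0.card := by
    have h1 : Q ⊆ T0.biUnion (fun u => (nb G u).filter (fun w => w ∈ P)) := by
      intro v hv
      rw [Finset.mem_filter] at hv
      obtain ⟨hvP, u, hu, huv⟩ := hv
      rw [Finset.mem_biUnion]
      exact ⟨u, hu, Finset.mem_filter.2 ⟨(mem_nb G u v).2 huv, hvP⟩⟩
    refine (Finset.card_le_card h1).trans (Finset.card_biUnion_le.trans ?_)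
    refine (Finset.sum_le_card_nsmul _ _ t (fun u _ => ht u)).trans ?_
    rw [smul_eq_mul, mul_comm]
  have hTcard : (T.card : ℝ) ≤ (1 + t) * T0.card := by
    have h1 : T.card ≤ T0.card + Q.card := Finset.card_union_le _ _
    have h2 : (T.card : ℝ) ≤ T0.card + Q.card := by exact_mod_cast h1
    have h3 : (Q.card : ℝ) ≤ t * T0.card := by exact_mod_cast hQ
    linarith
  -- neighbours of `T0` are in `T`
  have hnT : ∀ u v, u ∈ T0 → G.Adj u v → v ∈ T := by
    intro u v hu huv
    rw [Finset.mem_union]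
    by_cases hv : v ∈ P
    · right
      exact Finset.mem_filter.2 ⟨hv, u, hu, huv⟩
    · left
      exact (hmT0 v).2 ⟨hv, hdpos u v huv⟩
  -- sum of the degrees inside `T`
  let dT : V → ℕ := fun v => ((nb G v).filter (fun w => w ∈ T)).card
  have hsumT : (∑ v ∈ T, (dT v : ℝ)) ≤ a * T.card := by
    have h1 := hdens T
    refine le_trans ?_ h1
    have h3 : ∑ v ∈ T, dT v = ((pr G).filter (fun e => e.1 ∈ T ∧ e.2 ∈ T)).card := by
      rw [Finset.card_eq_sum_card_fiberwise (f := Prod.fst) (t := T)]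
      · apply Finset.sum_congr rfl
        intro u hu
        symm
        apply Finset.card_bij (fun e _ => e.2)
        · intro e he
          rw [Finset.mem_filter, Finset.mem_filter, mem_pr] at he
          rw [Finset.mem_filter, mem_nb, ← he.2]
          exact ⟨he.1.1, he.1.2.2⟩
        · intro e he f hf h
          rw [Finset.mem_filter] at he hf
          exact Prod.ext (he.2.trans hf.2.symm) h
        · intro w hw
          rw [Finset.mem_filter, mem_nb] at hw
          refine ⟨(u, w), ?_, rfl⟩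
          rw [Finset.mem_filter, Finset.mem_filter, mem_pr]
          exact ⟨⟨hw.1, hu, hw.2⟩, rfl⟩
      · intro e he
        rw [Finset.mem_coe, Finset.mem_filter] at he
        exact he.2.1
    rw [← h3]
    push_cast
    exact le_rfl
  have hsumT' : (∑ v ∈ T, (dT v : ℝ)) ≤ a * ((1 + t) * T0.card) :=
    hsumT.trans (mul_le_mul_of_nonneg_left hTcard (by linarith))
  have hdT0 : ∀ v ∈ T0, dT v = dg G v := by
    intro v hv
    unfold dg
    simp only [dT]
    congr 1
    rw [Finset.filter_eq_self]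
    intro w hw
    exact hnT v w hv ((mem_nb G v w).1 hw)
  have hdTQ : ∀ v, v ∈ T → dg G v ≤ dT v + t := by
    intro v hv
    rw [Finset.mem_union] at hv
    rcases hv with hv | hv
    · rw [hdT0 v hv]
      exact Nat.le_add_right _ _
    · have h1 := Finset.card_filter_add_card_filter_not (s := nb G v) (fun w => w ∈ T)
      have h2 : ((nb G v).filter (fun w => ¬ w ∈ T)).card ≤
          ((nb G v).filter (fun w => w ∈ P)).card := by
        apply Finset.card_le_card
        intro w hw
        rw [Finset.mem_filter] at hw ⊢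
        refine ⟨hw.1, ?_⟩
        by_contra hwP
        apply hw.2
        rw [Finset.mem_union]
        left
        exact (hmT0 w).2 ⟨hwP, hdpos v w ((mem_nb G v w).1 hw.1)⟩
      have h3 := ht v
      unfold dg
      simp only [dT]
      omega
  have hlog : 0 ≤ Real.log (D : ℝ) := Real.log_natCast_nonneg D
  have hm1 : 0 ≤ θ * Real.log D := by
    apply mul_nonneg _ hlog
    linarith
  have ha' : 17 * θ * (1 + Real.log D) ≤ D := by
    rw [hθ]
    linarith
  have hD34 : (34 : ℝ) ≤ D := by nlinarith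
  have hlog1 : 1 ≤ Real.log (D : ℝ) := by
    rw [Real.le_log_iff_exp_le (by linarith)]
    have := Real.exp_one_lt_d9
    linarith
  have hRS : (S.card : ℝ) + R.card = T0.card := by
    have h1 := Finset.card_filter_add_card_filter_not (s := T0) (fun v => (dg G v : ℝ) ≤ θ)
    exact_mod_cast h1
  have hR : θ * R.card ≤ a * ((1 + t) * T0.card) := by
    refine le_trans ?_ hsumT'
    have h1 : (∑ v ∈ R, (dT v : ℝ)) ≤ ∑ v ∈ T, (dT v : ℝ) := by
      apply Finset.sum_le_sum_of_subset_of_nonneg
      · exact (Finset.filter_subset _ _).trans Finset.subset_union_left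
      · intro v _ _
        positivity
    refine le_trans ?_ h1
    have h2 : θ * (R.card : ℝ) = ∑ v ∈ R, θ := by
      rw [Finset.sum_const, nsmul_eq_mul]
      ring
    rw [h2]
    apply Finset.sum_le_sum
    intro v hv
    rw [Finset.mem_filter] at hv
    rw [hdT0 v hv.1]
    linarith [hv.2]
  have hS : (T0.card : ℝ) ≤ 2 * S.card := by
    have h1 : 2 * (R.card : ℝ) ≤ T0.card := by
      by_contra hcon
      push Not at hcon
      have h2 : θ * T0.card < θ * (2 * R.card) :=
        mul_lt_mul_of_pos_left hcon (by linarith)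
      have h3 : θ * T0.card = 2 * (a * ((1 + t) * T0.card)) := by
        rw [hθ]
        ring
      nlinarith
    linarith
  have hBT : B ⊆ T := by
    intro w hw
    rw [Finset.mem_filter] at hw
    obtain ⟨_, u, hu, h⟩ := hw
    rw [Finset.mem_filter] at hu
    exact hnT u w hu.1 h
  have hB : ((D : ℝ) + 2 - θ - t) * B.card ≤ θ * S.card := by
    have h1 : ((D : ℝ) + 2 - θ - t) * B.card ≤ ∑ v ∈ B, (dT v : ℝ) := by
      have h2 : ((D : ℝ) + 2 - θ - t) * B.card = ∑ v ∈ B, ((D : ℝ) + 2 - θ - t) := by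
        rw [Finset.sum_const, nsmul_eq_mul]
        ring
      rw [h2]
      apply Finset.sum_le_sum
      intro w hw
      have hwT := hBT hw
      rw [Finset.mem_filter] at hw
      obtain ⟨_, u, hu, h⟩ := hw
      rw [Finset.mem_filter] at hu
      have h3 := hno u w h ((hmT0 u).1 hu.1).1 (by
        rw [← hθ]
        exact hu.2)
      have h4 : (D : ℝ) + 2 ≤ dg G u + dg G w := by exact_mod_cast h3
      have h5 : (dg G w : ℝ) ≤ dT w + t := by exact_mod_cast hdTQ w hwT
      linarith [hu.2]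
    have h2 : (∑ v ∈ B, (dT v : ℝ)) ≤ ∑ v ∈ T, (dT v : ℝ) := by
      apply Finset.sum_le_sum_of_subset_of_nonneg hBT
      intro v _ _
      positivity
    have h3 : a * ((1 + t) * T0.card) ≤ θ * S.card := by
      have h4 : a * ((1 + t) * T0.card) = θ / 2 * T0.card := by
        rw [hθ]
        ring
      rw [h4]
      have h5 : θ / 2 * T0.card ≤ θ / 2 * (2 * S.card) :=
        mul_le_mul_of_nonneg_left hS (by linarith)
      linarith
    linarith
  have hHW : 16 * (HW (ES G S) : ℝ) < (S.card : ℝ) := by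
    have h1 := HW_le (ES G S) D (fun w => (hh_ES_le G S w).trans (hD w)) B (by
      intro e he
      rw [mem_ES] at he
      rw [Finset.mem_filter]
      exact ⟨Finset.mem_univ _, e.1, he.2, he.1⟩)
    have hBn : (0 : ℝ) ≤ B.card := by positivity
    have hSpos : (0 : ℝ) < S.card := by linarith
    have h2 : 16 * ((B.card : ℝ) * (1 + Real.log D)) < S.card := by
      rcases hBn.lt_or_eq with h3 | h3
      · have hθ1 : θ ≤ θ * Real.log D := by
          have h5 : θ * 1 ≤ θ * Real.log D := mul_le_mul_of_nonneg_left hlog1 (by linarith)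
          linarith
        have h4 : (16 * θ * (1 + Real.log D) + 1) * B.card ≤ θ * S.card := by
          refine le_trans ?_ hB
          apply mul_le_mul_of_nonneg_right _ hBn
          nlinarith
        have hθp : 0 < θ := by linarith
        have h5 : θ * (16 * ((B.card : ℝ) * (1 + Real.log D))) < θ * S.card := by
          nlinarith
        exact lt_of_mul_lt_mul_left h5 hθp.le
      · rw [← h3]
        simpa using hSpos
    linarith
  obtain ⟨X, hX1, hX2, hX3⟩ := peel (ES G S) S (by
    intro e he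
    exact ((mem_ES G S e).1 he).2) (by
    have h1 : ((16 * HW (ES G S) : ℚ) : ℝ) < ((S.card : ℚ) : ℝ) := by
      push_cast
      exact hHW
    exact_mod_cast h1)
  have hEX : (ES G S).filter (fun e => e.1 ∈ X) = ES G X := by
    ext e
    rw [Finset.mem_filter, mem_ES, mem_ES]
    constructor
    · rintro ⟨⟨h1, _⟩, h2⟩
      exact ⟨h1, h2⟩
    · rintro ⟨h1, h2⟩
      exact ⟨⟨h1, hX1 h2⟩, h2⟩
  rw [hEX] at hX3
  refine ⟨X, hX2, ?_, ?_, hX3⟩
  · intro u hu
    have h1 := hX1 hu
    rw [Finset.mem_filter] at h1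
    refine ⟨((hmT0 u).1 h1.1).1, ((hmT0 u).1 h1.1).2, ?_⟩
    rw [← hθ]
    exact h1.2
  · intro u hu v hv h
    have h1 := hX1 hu
    have h2 := hX1 hv
    rw [Finset.mem_filter] at h1 h2
    have h3 := hno u v h ((hmT0 u).1 h1.1).1 (by
      rw [← hθ]
      exact h1.2)
    have h4 : (D : ℝ) + 2 ≤ dg G u + dg G v := by exact_mod_cast h3
    have h5 : 17 * θ ≤ D := by nlinarith
    linarith [h1.2, h2.2]

end Pool.Agent.X211.TE
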